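import Pool.Agent.K4H90.Seg.Main

/-!
# Drawing a plane graph with its vertices on given segments: open segments only
-/

namespace Pool.Agent.Results.MP_1eee10_lc.OpenSegments

open Pool.Agent.K4H90.SegDraw

/-- **Drawing a plane graph with its vertices on given segments is `∃ℝ`-hard on the instances all
of whose segments, those of the vertices and the obstacles, are open.** -/
theorem result :
    ERHardOn
      (fun I : Inst => I.PlaneGraph ∧ (∀ e ∈ I.verts, e.2.1.closed = false) ∧
        ∀ s ∈ I.obstacles, s.closed = false)
      Inst.Solvable := by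
  intro L hL
  obtain ⟨f, hf, hp, h⟩ := hard false L hL
  exact ⟨f, hf, fun x => ⟨(hp x).1, (hp x).2.2, fun s hs => by rw [(hp x).2.1] at hs; simp at hs⟩, h⟩

end Pool.Agent.Results.MP_1eee10_lc.OpenSegments
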